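import Pool.Agent.RCE.All
import Pool.Agent.RCE.GAF
import Pool.Agent.RCE.QML

/-!
# Almost affine and almost Moebius self embeddings of round group carpets are onto

`T` is a round carpet in the plane, with a group of Moebius and anti Moebius bijections of `T` which is cocompact on the triples of
different points of `T` and has no common fixed point (the boundary of the fundamental group of a compact hyperbolic manifold of
dimension three with non empty totally geodesic boundary is such a carpet; by a theorem of Bonk, Kleiner and Merenkov the groups of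
the first question act in this way, up to finite kernels).

Theorem: a continuous map `f` from a relatively open part `V` of `T` to `T` which satisfies at each point of `V` one of the four
conditions below has a relatively open image; if `V = T` it is onto.
-/

set_option autoImplicit false

namespace Pool.Agent.Results.MP_d2bd1a_an.AlmostAffineMaps

open Metric

/-- The data of a round carpet in the plane: a closed disc with centre `c₀` and radius `r₀`, and a sequence of closed discs inside of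
the open disc, pairwise disjoint, such that the closed disc minus the open discs has empty interior. -/
structure RoundCarpet where
  c₀ : ℂ
  r₀ : ℝ
  c : ℕ → ℂ
  r : ℕ → ℝ
  r₀_pos : 0 < r₀
  r_pos : ∀ i, 0 < r i
  inside : ∀ i, closedBall (c i) (r i) ⊆ ball c₀ r₀
  disjoint : ∀ i j, i ≠ j → Disjoint (closedBall (c i) (r i)) (closedBall (c j) (r j))
  no_interior : interior (closedBall c₀ r₀ \ ⋃ i, ball (c i) (r i)) = ∅

/-- The round carpet as a subset of the plane: the closed disc minus the open discs. -/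
def RoundCarpet.T (K : RoundCarpet) : Set ℂ := closedBall K.c₀ K.r₀ \ ⋃ i, ball (K.c i) (K.r i)

/-- The bijection `g` of `T` is the restriction of a Moebius or an anti Moebius transformation. -/
def IsMoebius (T : Set ℂ) (g : Equiv.Perm T) : Prop := ∃ a b c d : ℂ, a * d - b * c = 1 ∧
  ((∀ z : T, c * z + d ≠ 0 ∧ (g z : ℂ) = (a * z + b) / (c * z + d)) ∨
   (∀ z : T, c * (starRingEnd ℂ) (z : ℂ) + d ≠ 0 ∧
      (g z : ℂ) = (a * (starRingEnd ℂ) (z : ℂ) + b) / (c * (starRingEnd ℂ) (z : ℂ) + d)))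

/-- `Γ` is a group of Moebius and anti Moebius bijections of the set `T`, cocompact on triples of different points (they can be
moved to triples with mutual distances at least `δ`), without common fixed point. -/
structure CarpetGroup (T : Set ℂ) (Γ : Subgroup (Equiv.Perm T)) : Prop where
  moebius : ∀ g ∈ Γ, IsMoebius T g
  cocompact : ∃ δ : ℝ, 0 < δ ∧ ∀ x y z : T, x ≠ y → y ≠ z → x ≠ z → ∃ g ∈ Γ,
    δ ≤ ‖(g x : ℂ) - g y‖ ∧ δ ≤ ‖(g y : ℂ) - g z‖ ∧ δ ≤ ‖(g x : ℂ) - g z‖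
  no_fixed_point : ∀ x : T, ∃ g ∈ Γ, g x ≠ x

/-- Condition (a) at `x`: `f` has at `x` an injective real derivative relative to `T`. -/
def Regular (T : Set ℂ) (f : ℂ → ℂ) (x : ℂ) : Prop :=
  ∃ A : ℂ →L[ℝ] ℂ, Function.Injective A ∧ HasFDerivWithinAt f A T x

/-- Condition (b) at `x`: for some `M` and at all small scales `R`, the distances of the images of points of `T ∩ ball x R` are up to
`θ M * l * R` the lengths of the images of their differences under a real linear map `A` with `l |v| ≤ |A v| ≤ M l |v|`. -/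
def AlmostAffine (T : Set ℂ) (θ : ℝ → ℝ) (f : ℂ → ℂ) (x : ℂ) : Prop :=
  ∃ M : ℝ, 1 ≤ M ∧ ∃ R₀ : ℝ, 0 < R₀ ∧ ∀ R : ℝ, 0 < R → R < R₀ → ∃ (A : ℂ →ₗ[ℝ] ℂ) (l : ℝ), 0 < l ∧
    (∀ v, l * ‖v‖ ≤ ‖A v‖ ∧ ‖A v‖ ≤ M * l * ‖v‖) ∧
    ∀ p ∈ T, ∀ q ∈ T, ‖p - x‖ < R → ‖q - x‖ < R → |‖f p - f q‖ - ‖A (p - q)‖| ≤ θ M * l * R

/-- Condition (c) at `x`: near `x` the map `f` is injective and changes ratios `|a - b| / |a - c| ≤ 1` by at most `ε`. -/
def AlmostSimilar (T : Set ℂ) (ε : ℝ) (f : ℂ → ℂ) (x : ℂ) : Prop :=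
  ∃ R : ℝ, 0 < R ∧ Set.InjOn f (T ∩ ball x R) ∧ ∀ a ∈ T ∩ ball x R, ∀ b ∈ T ∩ ball x R, ∀ c ∈ T ∩ ball x R, a ≠ c →
    ‖a - b‖ ≤ ‖a - c‖ → |‖f a - f b‖ / ‖f a - f c‖ - ‖a - b‖ / ‖a - c‖| ≤ ε

/-- The absolute cross ratio. -/
noncomputable def crossRatio (a b c d : ℂ) : ℝ := ‖a - b‖ * ‖c - d‖ / (‖a - c‖ * ‖b - d‖)

/-- Condition (d) at `x`: near `x` the map `f` is injective and changes cross ratios `≤ 2` by at most `ε`. -/
def AlmostMoebius (T : Set ℂ) (ε : ℝ) (f : ℂ → ℂ) (x : ℂ) : Prop :=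
  ∃ R : ℝ, 0 < R ∧ Set.InjOn f (T ∩ ball x R) ∧ ∀ a ∈ T ∩ ball x R, ∀ b ∈ T ∩ ball x R, ∀ c ∈ T ∩ ball x R,
    ∀ d ∈ T ∩ ball x R, a ≠ c → b ≠ d → crossRatio a b c d ≤ 2 →
    |crossRatio (f a) (f b) (f c) (f d) - crossRatio a b c d| ≤ ε

/-- the same data in the form of the proof -/
private def toCp (K : RoundCarpet) : RCE.Cp where
  c₀ := K.c₀
  r₀ := K.r₀
  c := K.c
  r := K.r
  r₀pos := K.r₀_pos
  rpos := K.r_pos
  sub := K.inside
  disj := K.disjoint
  int := K.no_interior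

private theorem similar_aux {A B A' B' ε : ℝ} (hB : 0 < B) (hB' : 0 < B') (h : |A' / B' - A / B| ≤ ε) :
    |A' * B - B' * A| ≤ ε * (B * B') := by
  have h1 : A' * B - B' * A = (A' / B' - A / B) * (B * B') := by
    field_simp
  rw [h1, abs_mul, abs_of_pos (mul_pos hB hB')]
  exact mul_le_mul_of_nonneg_right h (mul_pos hB hB').le

private theorem similar {T : Set ℂ} {ε R : ℝ} {f : ℂ → ℂ} {x : ℂ} (hi : Set.InjOn f (T ∩ ball x R))
    (h : ∀ a ∈ T ∩ ball x R, ∀ b ∈ T ∩ ball x R, ∀ c ∈ T ∩ ball x R, a ≠ c →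
    ‖a - b‖ ≤ ‖a - c‖ → |‖f a - f b‖ / ‖f a - f c‖ - ‖a - b‖ / ‖a - c‖| ≤ ε) : RCE.AlmSim T f x R ε := by
  intro a ha b hb c hc hax hbx hcx hab
  have hin : ∀ p ∈ T, ‖p - x‖ < R → p ∈ T ∩ ball x R := fun p hp h => ⟨hp, by rwa [mem_ball, dist_eq_norm]⟩
  by_cases hac : a = c
  · subst hac
    rw [sub_self, norm_zero] at hab
    have h0 : ‖a - b‖ = 0 := le_antisymm hab (norm_nonneg _)
    rw [h0, sub_self, norm_zero, sub_self, norm_zero]
    simp
  · have hB : 0 < ‖a - c‖ := norm_pos_iff.2 (sub_ne_zero.2 hac)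
    have hB' : 0 < ‖f a - f c‖ :=
      norm_pos_iff.2 (sub_ne_zero.2 fun h => hac (hi (hin a ha hax) (hin c hc hcx) h))
    exact similar_aux hB hB' (h a (hin a ha hax) b (hin b hb hbx) c (hin c hc hcx) hac hab)

/-- **Almost affine and almost Moebius self maps of round group carpets.** Let `T` be a round carpet with a cocompact group of Moebius
and anti Moebius bijections. There are `θ M > 0` and `ε > 0` with the following property. Let `f` be a continuous map from a relatively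
open set `V = T ∩ O` to `T`, such that at each point `x` of `V` one of the conditions (a), (b) with `θ`, (c) with `ε`, (d) with `ε`
holds. Then `f '' V` is relatively open in `T`, and if `V = T` then `f` is onto. -/
theorem result (K : RoundCarpet) (Γ : Subgroup (Equiv.Perm K.T)) (hΓ : CarpetGroup K.T Γ) :
    ∃ (θ : ℝ → ℝ) (ε : ℝ), (∀ M, 0 < θ M) ∧ 0 < ε ∧
      ∀ (O : Set ℂ) (f : ℂ → ℂ), IsOpen O → ContinuousOn f (K.T ∩ O) → Set.MapsTo f (K.T ∩ O) K.T →
        (∀ x ∈ K.T ∩ O, Regular K.T f x ∨ AlmostAffine K.T θ f x ∨ AlmostSimilar K.T ε f x ∨ AlmostMoebius K.T ε f x) →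
        (∃ O' : Set ℂ, IsOpen O' ∧ f '' (K.T ∩ O) = K.T ∩ O') ∧ (K.T ⊆ O → f '' K.T = K.T) := by
  have hG : RCE.Grp (toCp K) Γ := ⟨hΓ.moebius, hΓ.cocompact, hΓ.no_fixed_point⟩
  obtain ⟨θ, hθ, hmain⟩ := (RCE.main (toCp K) Γ hG).1
  obtain ⟨θ', hθ', hgaf⟩ := RCE.thm_GAF RCE.thm_STB RCE.thm_CC RCE.thm_TF (toCp K) θ hθ
  obtain ⟨ε, hε, hqsl⟩ := RCE.all_QSL (toCp K) θ hθ
  refine ⟨θ', ε / 4, hθ', by positivity, ?_⟩
  intro O f hO hf hm hcond
  have hT : (toCp K).T = K.T := rfl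
  have haff : ∀ x ∈ K.T ∩ O, RCE.AAff (toCp K) θ f x := by
    intro x hx
    rcases hcond x hx with ⟨A, hA, hd⟩ | hb | ⟨R, hR, hi, hc⟩ | ⟨R, hR, hi, hd⟩
    · exact RCE.thm_DIF (toCp K) θ f x A hθ hA hd
    · apply hgaf f x hx.1
      obtain ⟨M, hM, R₀, hR₀, h⟩ := hb
      refine ⟨M, hM, R₀, hR₀, fun R hR hRR => ?_⟩
      obtain ⟨A, l, hl, hA, hd⟩ := h R hR hRR
      exact ⟨A, l, ⟨hl, hA⟩, hd⟩
    · have h1 : RCE.AlmSim K.T f x R (ε / 4) := similar hi hc
      refine hqsl f x R hx.1 hR ?_ hi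
      intro a ha b hb c hc' h2 h3 h4 h5
      refine (h1 a ha b hb c hc' h2 h3 h4 h5).trans ?_
      apply mul_le_mul_of_nonneg_right (by linarith) (by positivity)
    · -- make the ball smaller so that it is in `O`
      obtain ⟨r, hr, hrO⟩ := Metric.isOpen_iff.1 hO x hx.2
      have hmin : 0 < min R r := lt_min hR hr
      have hsub : K.T ∩ ball x (min R r) ⊆ K.T ∩ ball x R :=
        Set.inter_subset_inter_right _ (ball_subset_ball (min_le_left _ _))
      have hsub' : K.T ∩ ball x (min R r) ⊆ K.T ∩ O :=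
        Set.inter_subset_inter_right _ ((ball_subset_ball (min_le_right _ _)).trans hrO)
      obtain ⟨R₀, hR₀, hR₀R, hs⟩ := RCE.thm_QML RCE.all_SPH (toCp K) f (ε / 4) (min R r) x (by positivity) hmin hx.1
        (hf.mono hsub') (hi.mono hsub)
        (fun a ha b hb c hc d hd' h1 h2 h3 => hd a (hsub ha) b (hsub hb) c (hsub hc) d (hsub hd') h1 h2 h3)
      have e : 4 * (ε / 4) = ε := by ring
      rw [e] at hs
      refine hqsl f x R₀ hx.1 hR₀ hs (hi.mono ?_)
      exact (Set.inter_subset_inter_right _ (ball_subset_ball hR₀R)).trans hsub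
  have h := hmain (K.T ∩ O) f ⟨O, hO, rfl⟩ hf hm haff
  refine ⟨h.1, fun hTO => ?_⟩
  have hV : K.T ∩ O = K.T := Set.inter_eq_left.2 hTO
  have h2 := h.2 hV
  rw [hV] at h2
  exact h2

end Pool.Agent.Results.MP_d2bd1a_an.AlmostAffineMaps
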