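import Pool.Agent.RCP.FN2

/-!
# Embeddings of round group carpets which are regular on the peripheral circles are onto

`T` is a round carpet in the plane, with a group of Moebius and anti Moebius bijections of `T` which is cocompact on the triples of
different points of `T` and has no common fixed point (the boundary of the fundamental group of a compact hyperbolic manifold of
dimension three with non empty totally geodesic boundary is such a carpet; by a theorem of Bonk, Kleiner and Merenkov the groups of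
the first question act in this way, up to finite kernels).

Theorem: a continuous injective map `f` from `T` to `T` is onto if it satisfies one of the four conditions below at the points of the
peripheral circles, up to a set `N` such that `f '' N` has Hausdorff measure zero in a certain positive dimension (for instance a
countable set `N`).  The conditions are conditions along `T`; if all round circles in `T` are peripheral, they are only needed along
the peripheral circles, and it is also enough that the images of the peripheral circles are flat (up to a small constant, and at all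
small scales).  Nothing is assumed at the other points of `T`.
-/

set_option autoImplicit false

namespace Pool.Agent.Results.MP_d2bd1a_an.PeripheralCircles

open Metric

/-- The data of a round carpet in the plane: a closed disc with centre `c₀` and radius `r₀`, and a sequence of closed discs inside of
the open disc, pairwise disjoint, such that the closed disc minus the open discs has empty interior. -/
structure RoundCarpet where
  c₀ : ℂ
  r₀ : ℝ
  c : ℕ → ℂ
  r : ℕ → ℝ
  r₀_pos : 0 < r₀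
  r_pos : ∀ i, 0 < r i
  inside : ∀ i, closedBall (c i) (r i) ⊆ ball c₀ r₀
  disjoint : ∀ i j, i ≠ j → Disjoint (closedBall (c i) (r i)) (closedBall (c j) (r j))
  no_interior : interior (closedBall c₀ r₀ \ ⋃ i, ball (c i) (r i)) = ∅

/-- The round carpet as a subset of the plane: the closed disc minus the open discs. -/
def RoundCarpet.T (K : RoundCarpet) : Set ℂ := closedBall K.c₀ K.r₀ \ ⋃ i, ball (K.c i) (K.r i)

/-- The peripheral circles: the outer circle (`none`) and the boundaries of the removed discs. -/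
def RoundCarpet.circle (K : RoundCarpet) : Option ℕ → Set ℂ
  | none => sphere K.c₀ K.r₀
  | some i => sphere (K.c i) (K.r i)

/-- All round circles in the carpet are peripheral. -/
def OnlyPeripheral (K : RoundCarpet) : Prop := ∀ (p : ℂ) (ρ : ℝ), 0 < ρ → sphere p ρ ⊆ K.T → ∃ j, sphere p ρ = K.circle j

/-- The bijection `g` of `T` is the restriction of a Moebius or an anti Moebius transformation. -/
def IsMoebius (T : Set ℂ) (g : Equiv.Perm T) : Prop := ∃ a b c d : ℂ, a * d - b * c = 1 ∧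
  ((∀ z : T, c * z + d ≠ 0 ∧ (g z : ℂ) = (a * z + b) / (c * z + d)) ∨
   (∀ z : T, c * (starRingEnd ℂ) (z : ℂ) + d ≠ 0 ∧
      (g z : ℂ) = (a * (starRingEnd ℂ) (z : ℂ) + b) / (c * (starRingEnd ℂ) (z : ℂ) + d)))

/-- `Γ` is a group of Moebius and anti Moebius bijections of the set `T`, cocompact on triples of different points (they can be
moved to triples with mutual distances at least `δ`), without common fixed point. -/
structure CarpetGroup (T : Set ℂ) (Γ : Subgroup (Equiv.Perm T)) : Prop where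
  moebius : ∀ g ∈ Γ, IsMoebius T g
  cocompact : ∃ δ : ℝ, 0 < δ ∧ ∀ x y z : T, x ≠ y → y ≠ z → x ≠ z → ∃ g ∈ Γ,
    δ ≤ ‖(g x : ℂ) - g y‖ ∧ δ ≤ ‖(g y : ℂ) - g z‖ ∧ δ ≤ ‖(g x : ℂ) - g z‖
  no_fixed_point : ∀ x : T, ∃ g ∈ Γ, g x ≠ x

/-- Condition (a) at `x` along the set `S`: `f` has at `x` an injective real derivative relative to `S`. For a circle `S` this says
that the derivative along the circle exists and is not zero. -/
def Regular (S : Set ℂ) (f : ℂ → ℂ) (x : ℂ) : Prop :=
  ∃ A : ℂ →L[ℝ] ℂ, Function.Injective A ∧ HasFDerivWithinAt f A S x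

/-- Condition (b) at `x` along `S`: for some `M` and at all small scales `R`, the distances of the images of points of `S ∩ ball x R`
are up to `θ M * l * R` the lengths of the images of their differences under a real linear map `A` with `l |v| ≤ |A v| ≤ M l |v|`. -/
def AlmostAffine (S : Set ℂ) (θ : ℝ → ℝ) (f : ℂ → ℂ) (x : ℂ) : Prop :=
  ∃ M : ℝ, 1 ≤ M ∧ ∃ R₀ : ℝ, 0 < R₀ ∧ ∀ R : ℝ, 0 < R → R < R₀ → ∃ (A : ℂ →ₗ[ℝ] ℂ) (l : ℝ), 0 < l ∧
    (∀ v, l * ‖v‖ ≤ ‖A v‖ ∧ ‖A v‖ ≤ M * l * ‖v‖) ∧
    ∀ p ∈ S, ∀ q ∈ S, ‖p - x‖ < R → ‖q - x‖ < R → |‖f p - f q‖ - ‖A (p - q)‖| ≤ θ M * l * R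

/-- Condition (c) at `x` along `S`: near `x` the map `f` is injective on `S` and changes ratios `|a - b| / |a - c| ≤ 1` of points of
`S` by at most `ε`. -/
def AlmostSimilar (S : Set ℂ) (ε : ℝ) (f : ℂ → ℂ) (x : ℂ) : Prop :=
  ∃ R : ℝ, 0 < R ∧ Set.InjOn f (S ∩ ball x R) ∧ ∀ a ∈ S ∩ ball x R, ∀ b ∈ S ∩ ball x R, ∀ c ∈ S ∩ ball x R, a ≠ c →
    ‖a - b‖ ≤ ‖a - c‖ → |‖f a - f b‖ / ‖f a - f c‖ - ‖a - b‖ / ‖a - c‖| ≤ ε

/-- The absolute cross ratio. -/
noncomputable def crossRatio (a b c d : ℂ) : ℝ := ‖a - b‖ * ‖c - d‖ / (‖a - c‖ * ‖b - d‖)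

/-- Condition (d) at `x` along `S`: near `x` the map `f` is injective on `S` and changes cross ratios `≤ 2` of points of `S` by at
most `ε`. -/
def AlmostMoebius (S : Set ℂ) (ε : ℝ) (f : ℂ → ℂ) (x : ℂ) : Prop :=
  ∃ R : ℝ, 0 < R ∧ Set.InjOn f (S ∩ ball x R) ∧ ∀ a ∈ S ∩ ball x R, ∀ b ∈ S ∩ ball x R, ∀ c ∈ S ∩ ball x R,
    ∀ d ∈ S ∩ ball x R, a ≠ c → b ≠ d → crossRatio a b c d ≤ 2 →
    |crossRatio (f a) (f b) (f c) (f d) - crossRatio a b c d| ≤ ε

/-- `f` satisfies at `x` one of the conditions (a), (b) with `θ`, (c) with `ε`, (d) with `ε` along the set `S`. -/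
def Tame (S : Set ℂ) (θ : ℝ → ℝ) (ε : ℝ) (f : ℂ → ℂ) (x : ℂ) : Prop :=
  Regular S f x ∨ AlmostAffine S θ f x ∨ AlmostSimilar S ε f x ∨ AlmostMoebius S ε f x

/-- `S` is flat at `y` up to `ε`: at all small scales `d` there is a segment with midpoint `y` and length `2 * d` all of whose points
have distance at most `ε * d` from points of `S`. -/
def Flat (S : Set ℂ) (ε : ℝ) (y : ℂ) : Prop :=
  ∃ d₀ : ℝ, 0 < d₀ ∧ ∀ d : ℝ, 0 < d → d < d₀ → ∃ u : ℂ, ‖u‖ = 1 ∧ ∀ t : ℝ, |t| ≤ 1 → ∃ p ∈ S, ‖p - (y + t * d * u)‖ ≤ ε * d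

/-- the same data in the form of the proof -/
private def toCp (K : RoundCarpet) : RCE.Cp where
  c₀ := K.c₀
  r₀ := K.r₀
  c := K.c
  r := K.r
  r₀pos := K.r₀_pos
  rpos := K.r_pos
  sub := K.inside
  disj := K.disjoint
  int := K.no_interior

private theorem similar_aux {A B A' B' ε : ℝ} (hB : 0 < B) (hB' : 0 < B') (h : |A' / B' - A / B| ≤ ε) :
    |A' * B - B' * A| ≤ ε * (B * B') := by
  have h1 : A' * B - B' * A = (A' / B' - A / B) * (B * B') := by
    field_simp
  rw [h1, abs_mul, abs_of_pos (mul_pos hB hB')]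
  exact mul_le_mul_of_nonneg_right h (mul_pos hB hB').le

private theorem similar {T : Set ℂ} {ε R : ℝ} {f : ℂ → ℂ} {x : ℂ} (hi : Set.InjOn f (T ∩ ball x R))
    (h : ∀ a ∈ T ∩ ball x R, ∀ b ∈ T ∩ ball x R, ∀ c ∈ T ∩ ball x R, a ≠ c →
    ‖a - b‖ ≤ ‖a - c‖ → |‖f a - f b‖ / ‖f a - f c‖ - ‖a - b‖ / ‖a - c‖| ≤ ε) : RCE.AlmSim T f x R ε := by
  intro a ha b hb c hc hax hbx hcx hab
  have hin : ∀ p ∈ T, ‖p - x‖ < R → p ∈ T ∩ ball x R := fun p hp h => ⟨hp, by rwa [mem_ball, dist_eq_norm]⟩
  by_cases hac : a = c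
  · subst hac
    rw [sub_self, norm_zero] at hab
    have h0 : ‖a - b‖ = 0 := le_antisymm hab (norm_nonneg _)
    rw [h0, sub_self, norm_zero, sub_self, norm_zero]
    simp
  · have hB : 0 < ‖a - c‖ := norm_pos_iff.2 (sub_ne_zero.2 hac)
    have hB' : 0 < ‖f a - f c‖ :=
      norm_pos_iff.2 (sub_ne_zero.2 fun h => hac (hi (hin a ha hax) (hin c hc hcx) h))
    exact similar_aux hB hB' (h a (hin a ha hax) b (hin b hb hbx) c (hin c hc hcx) hac hab)

private theorem good {S : Set ℂ} {θ : ℝ → ℝ} {ε : ℝ} {f : ℂ → ℂ} {x : ℂ} (h : Tame S θ ε f x) : RCP.Good S θ ε f x := by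
  rcases h with h | ⟨M, hM, R₀, hR₀, h⟩ | ⟨R, hR, hi, h⟩ | h
  · exact Or.inl h
  · refine Or.inr (Or.inl ⟨M, hM, R₀, hR₀, fun R hR hRR => ?_⟩)
    obtain ⟨A, l, hl, hA, hd⟩ := h R hR hRR
    exact ⟨A, l, ⟨hl, hA⟩, hd⟩
  · exact Or.inr (Or.inr (Or.inl ⟨R, hR, hi, similar hi h⟩))
  · exact Or.inr (Or.inr (Or.inr h))

private theorem sphere_unique {p q : ℂ} {ρ σ : ℝ} (hρ : 0 < ρ) (hσ : 0 < σ) (h : sphere p ρ = sphere q σ) : p = q ∧ ρ = σ := by
  have h1 : ∀ w : ℂ, ‖w‖ = 1 → ‖p + ρ * w - q‖ ^ 2 = σ ^ 2 := by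
    intro w hw
    have h2 : p + ρ * w ∈ sphere p ρ := by
      simp [hw, abs_of_pos hρ]
    rw [h, mem_sphere_iff_norm] at h2
    rw [h2]
  have e1 := h1 1 (by simp)
  have e2 := h1 (-1) (by simp)
  have e3 := h1 Complex.I (by simp)
  have e4 := h1 (-Complex.I) (by simp)
  rw [← Complex.normSq_eq_norm_sq, Complex.normSq_apply] at e1 e2 e3 e4
  simp at e1 e2 e3 e4
  have hre : p.re = q.re := by
    have h3 : ρ * (p.re - q.re) = 0 := by linarith
    rcases mul_eq_zero.1 h3 with h4 | h4
    · exact absurd h4 hρ.ne'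
    · linarith
  have him : p.im = q.im := by
    have h3 : ρ * (p.im - q.im) = 0 := by linarith
    rcases mul_eq_zero.1 h3 with h4 | h4
    · exact absurd h4 hρ.ne'
    · linarith
  refine ⟨Complex.ext hre him, ?_⟩
  rw [hre, him] at e1
  have h5 : ρ ^ 2 = σ ^ 2 := by
    rw [← e1]
    ring
  have h6 : (ρ - σ) * (ρ + σ) = 0 := by
    linear_combination h5
  rcases mul_eq_zero.1 h6 with h7 | h7
  · linarith
  · linarith

/-- **Embeddings which are tame on the peripheral circles.** Let `T` be a round carpet with a cocompact group of Moebius and anti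
Moebius bijections. There are `κ > 0`, `ε > 0` and `θ M > 0` with the following property. Let `f` be a continuous injective map from
`T` to `T` and `N` a set such that `f '' N` has `κ`-dimensional Hausdorff measure zero. Suppose that at each point `x` of a
peripheral circle `C` which is not in `N` one of the conditions (a), (b), (c), (d) holds along `T`, or, in case all round circles in
`T` are peripheral, one of them holds along `C` or `T` is flat at `f x` up to `ε` (for instance because the curve `f '' C` in `T` is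
flat at `f x`). Then `f` is onto. -/
theorem result (K : RoundCarpet) (Γ : Subgroup (Equiv.Perm K.T)) (hΓ : CarpetGroup K.T Γ) :
    ∃ (κ ε : ℝ) (θ : ℝ → ℝ), 0 < κ ∧ 0 < ε ∧ (∀ M, 0 < θ M) ∧
      ∀ (f : ℂ → ℂ) (N : Set ℂ), ContinuousOn f K.T → Set.MapsTo f K.T K.T → Set.InjOn f K.T →
        MeasureTheory.Measure.hausdorffMeasure κ (f '' N) = 0 →
        (∀ j, ∀ x ∈ K.circle j, x ∉ N →
          Tame K.T θ ε f x ∨ (OnlyPeripheral K ∧ (Tame (K.circle j) θ ε f x ∨ Flat K.T ε (f x)))) →
        f '' K.T = K.T := by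
  have hG : RCE.Grp (toCp K) Γ := ⟨hΓ.moebius, hΓ.cocompact, hΓ.no_fixed_point⟩
  obtain ⟨κ, ε, θ, hκ, hε, hθ, -, hmain⟩ := RCP.main2 (toCp K) Γ hG
  refine ⟨κ, ε, θ, hκ, hε, hθ, ?_⟩
  intro f N hf hm hi hN hcond
  have hcirc : ∀ j, RCP.PC (toCp K) j = K.circle j := by
    intro j
    cases j <;> rfl
  have hrr : ∀ j, 0 < RCP.rr (toCp K) j := by
    intro j
    cases j with
    | none => exact K.r₀_pos
    | some i => exact K.r_pos i
  have honly : OnlyPeripheral K → RCP.NPC (toCp K) := by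
    intro h p ρ hρ hs
    obtain ⟨j, hj⟩ := h p ρ hρ hs
    rw [← hcirc j] at hj
    exact ⟨j, sphere_unique hρ (hrr j) hj⟩
  refine hmain f hf hm hi (MeasureTheory.measure_mono_null ?_ hN)
  rintro _ ⟨x, ⟨j, hx, h1, h2⟩, rfl⟩
  refine ⟨x, ?_, rfl⟩
  by_contra hxN
  rw [hcirc j] at hx h2
  rcases hcond j x hx hxN with h | ⟨h, h' | h'⟩
  · exact h1 (good h)
  · exact h2 ⟨honly h, Or.inl (good h')⟩
  · exact h2 ⟨honly h, Or.inr h'⟩

end Pool.Agent.Results.MP_d2bd1a_an.PeripheralCircles
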